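import Pool.Agent.HS37.CV.Val
import Pool.Agent.HS37.CV.LU1
import Pool.Agent.HS37.CV.LU2
import Pool.Agent.HS37.CV.INJ
import Pool.Agent.HS37.CV.SUR
import Pool.Agent.HS37.CV.Sym
import Pool.Agent.HS37.CV.Fn
import Pool.Agent.HS37.CV.INTP
import Pool.Agent.HS37.CV.YINT
import Pool.Agent.HS37.CV.Self
import Pool.Agent.HS37.CV.FDK
import Pool.Agent.HS37.CV.ARIK
import Pool.Agent.HS37.CV.RATK
import Pool.Agent.HS37.CV.NUMK
import Pool.Agent.HS37.CV.Inl
import Pool.Agent.HS37.CV.INE2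
import Pool.Agent.HS37.CQ.Inty
import Pool.Agent.HS37.CQ.Inr2
import Pool.Agent.HS37.CQ.Luc
import Pool.Agent.HS37.CQ.EXP
import Pool.Agent.HS37.CQ.Ext
import Pool.Agent.HS37.CQ.Intl
import Pool.Agent.HS37.CQ.PAR
import Pool.Agent.HS37.CQ.PRE
import Pool.Agent.HS37.CQ.Psm
import Pool.Agent.HS37.CQ.Rel
import Pool.Agent.HS37.CQ.Ram
import Pool.Agent.HS37.CQ.Udv
import Pool.Agent.HS37.CQ.Conn
import Pool.Agent.HS37.CQ.Clo
import Pool.Agent.HS37.CQ.Cla
import Pool.Agent.HS37.CQ.Gex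
import Pool.Agent.HS37.CQ.Vr2
import Pool.Agent.HS37.CQ.Hk2
import Pool.Agent.HS37.CQ.Bas
import Pool.Agent.HS37.CQ.TRC
import Pool.Agent.HS37.CQ.Hyp

/-!
# The supercongruences modulo `p²` attached to Ramanujan's `21460 k + 1123` series

`M_k = (4 k)! / k!⁴`, `c = -2^10 · 21^4`, `S(p) = ∑_{k < p} M_k c^(-k)`. For every prime `p > 3`, `p ≠ 7`, modulo `p²`:
`S(p) ≡ 4 x² - 2 p` if `(-1/p) = (37/p) = 1` and `p = x² + 37 y²`, `S(p) ≡ 2 p - 2 x²` if `(-1/p) = (37/p) = -1` and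
`2 p = x² + 37 y²`, and `S(p) ≡ 0` if `(-37/p) = -1`. This is Q1.

Proof. With `e = (E₄(τ) - E₄(2τ)) / 240`, `s = (16 E₄(2τ) - E₄(τ)) / 15`, `P = 2 E₂(2τ) - E₂(τ)`, `h = s / e` and
`y = P⁴ / (e s) = (h + 64)² / h` on `Γ₀(2)`, `P = ∑ M_n y^(-n)` by Ramanujan's differential equations.

The value `y((1 + √-37) / 2) = c`. `y` is a bijection from `Γ₀(2)+ \ ℍ` to `ℂ`; for an odd prime `N` the product of
`y(τ) - y(τ')` over the sublattices of index `N` is `F_N(y)` with `- F_N ∈ ℤ[Y]` monic. A common zero of `F_19`, `F_31`, `F_41`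
is the value at a point with endomorphisms of norms `19` or `38`, `31` or `62`, `41` or `82`; the only such discriminant is
`-148`, and the only such point `(1 + √-37) / 2`. So the minimal polynomial of the value has one root only; the value is
an integer, and a numerical estimate of `e^(π √37)` gives it.

The congruences. For `p = x² + 37 y²` or `2 p = x² + 37 y²` let `λ` be the corresponding element of `ℤ[(1 + √-37)]`,
`Λ` the lattice of `(1 + √-37) / 2`. For the sublattices of index `p` a suitable combination of `P`, `s`, `e` with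
`∑_{n ≤ (p - 1) / 2} M_n y^(-n)` has power sums with principal parts divisible by `p^(2m)`, so it is `p²` times an algebraic
integer; for the sublattice `λ Λ` this gives the sum modulo the square of the conjugate of `λ`. For inert `p` the
form `K = ∑_{n ≤ p/4} M_n (e s)^n P^(p-1-4n)` is `≡ 1 mod p`, and the Hecke correspondence of index `41` on `K²`, applied at
`(1 + √-37) / 2`, gives `p ∣ S(p)`; a truncated Clausen formula modulo `p²` shows that `S(p)` is modulo `p²` a square in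
`(ℤ/p²)[√37]`, so `p² ∣ S(p)`. (`p = 11` is checked by computation.)

Written with helpers 6, 11, 15, 42, 45, 50, 51, 61, 63, 74, 78, 84, 88 (files of `Pool/Agent/HS37/CV`) and, for the
files of `Pool/Agent/HS37/CQ` used, with helpers 12, 34, 41, 42, 43, 53, 55, 59, 61, 70, 81, 4 and 32.
-/

set_option autoImplicit false

open Pool.Agent.HS37.CV Pool.Agent.HS37.CQ Pool.Agent.HS37.SP

namespace Pool.Agent.Results.MP_7e705e_nt.ClassNumberTwo

/-- `M_k = (4 k)! / (k!)^4` -/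
def M (k : ℕ) : ℚ := ((4 * k).factorial : ℚ) / (k.factorial : ℚ) ^ 4

/-- `S(p) = ∑_{k < p} M_k c^(-k)`, `c = -2^10 · 21^4` -/
def S (p : ℕ) : ℚ := ∑ k ∈ Finset.range p, M k / (-2 ^ 10 * 21 ^ 4) ^ k

/-- `u ≡ v mod p^r` for rational numbers: `v_p(u - v) ≥ r` -/
def Congr (p r : ℕ) (u v : ℚ) : Prop := u = v ∨ (r : ℤ) ≤ padicValRat p (u - v)

theorem all : S_INTY ∧ S_UDV ∧ S_INR2 ∧ S_INL ∧
    fP tauK ^ 4 = (cK : ℂ) * (fe tauK * fs tauK) := by
  have hE := t_EXP t_BAS t_EIS t_QMUL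
  have hR := t_REL t_CON t_BAS hE t_CLO t_EIS t_QMUL
  have hP := t_PRE hR t_BAS hE t_CLO t_EIS t_QMUL
  have hG := t_GEX hP
  have hP2 := t_PR2 hG t_CON hP t_CLO
  have hHK := t_HK2 t_VR2
  have hT := t_TRC hHK t_CLO
  have hI := t_INTL hT hG hP2 t_PSM t_CLO hP
  have hRam := t_RAM hR hE
  have hPar := t_PAR hRam hE
  have hH := t_HYP hPar t_UDV hE
  have hLUC := t_LUC hPar t_UDV hE
  -- the CM value
  have hLU : S_LU := fun τ₁ τ₂ l hl h4 h6 => t_LU2 τ₁ τ₂ l hl (t_LU1 τ₁ τ₂ l hl h4 h6)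
  have hINJ := t_INJ hLU hR hP
  have hSUR := t_SUR t_CON hP hR hE t_CLO t_BAS t_QMUL
  have hSYM := t_SYM t_CON hP hE t_CLO
  have hFN := t_FN hSYM hHK hP hE t_CLO
  have hY := t_YINT hFN t_INTP hSUR t_PSM
  have hSELF := t_SELF t_VR2 hP
  have hFDK := t_FDK hP
  have hREL2N := t_REL2N hINJ
  have hRAT := t_RATK hFN hY hSUR hSELF hFDK hREL2N t_ARIK hP
  have hNUM := t_NUMK hE
  exact ⟨t_INTY hI hH t_VR2 hR hP hE hRam t_CLO t_BAS, t_UDV, t_INR2 t_CLA t_UDV,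
    t_INL hLUC hHK t_VR2 hP2 t_PSM hP hE t_CLO t_BAS hR, value hRAT hNUM hR⟩

lemma M_eq (k : ℕ) : M k = (uu k : ℚ) := by
  unfold M
  have h := t_UDV.2.2.2.1 k
  have h0 : (k.factorial : ℚ) ^ 4 ≠ 0 := pow_ne_zero _ (by exact_mod_cast k.factorial_ne_zero)
  rw [div_eq_iff h0]
  exact_mod_cast h.symm

lemma S_eq (p : ℕ) (hp : 0 < p) : S p * (cK : ℚ) ^ (p - 1) = (SN p cK : ℚ) := by
  unfold S SN
  rw [Finset.sum_mul]
  push_cast
  refine Finset.sum_congr rfl fun k hk => ?_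
  rw [Finset.mem_range] at hk
  have h1 : p - 1 = k + (p - 1 - k) := by omega
  have h2 : (-2 ^ 10 * 21 ^ 4 : ℚ) = (cK : ℚ) := by unfold cK; norm_num
  have h3 : (cK : ℚ) ^ k ≠ 0 := pow_ne_zero _ (by unfold cK; norm_num)
  rw [M_eq, h2]
  conv_lhs => rw [h1, pow_add]
  field_simp

/-- integer congruences to rational ones -/
lemma congr_of {p : ℕ} (hp : p.Prime) (hp3 : 3 < p) (hp7 : p ≠ 7) {v : ℤ}
    (h : (p : ℤ) ^ 2 ∣ SN p cK - cK ^ (p - 1) * v) : Congr p 2 (S p) v := by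
  by_cases he : S p = (v : ℚ)
  · exact Or.inl he
  right
  have _ : Fact p.Prime := ⟨hp⟩
  obtain ⟨z, hz⟩ := h
  have hm0 : (cK : ℚ) ≠ 0 := by unfold cK; norm_num
  have hc0 : (cK : ℚ) ^ (p - 1) ≠ 0 := pow_ne_zero _ hm0
  have h1 : (S p - v) * (cK : ℚ) ^ (p - 1) = (p : ℚ) ^ 2 * z := by
    rw [sub_mul, S_eq p hp.pos]
    have : ((SN p cK - cK ^ (p - 1) * v : ℤ) : ℚ) = (((p : ℤ) ^ 2 * z : ℤ) : ℚ) := by
      rw [hz]
    push_cast at this
    linear_combination this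
  have h2 : S p - v ≠ 0 := sub_ne_zero.2 he
  have hz0 : (z : ℚ) ≠ 0 := by
    intro h3
    rw [h3, mul_zero] at h1
    rcases mul_eq_zero.1 h1 with h4 | h4
    · exact h2 h4
    · exact hc0 h4
  have hp0 : (p : ℚ) ≠ 0 := by exact_mod_cast hp.ne_zero
  have h3 := congrArg (padicValRat p) h1
  rw [padicValRat.mul h2 hc0, padicValRat.mul (pow_ne_zero 2 hp0) hz0, padicValRat.pow,
    padicValRat.pow, padicValRat.self hp.one_lt] at h3
  have h4 : padicValRat p (cK : ℚ) = 0 := by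
    rw [padicValRat.of_int, padicValInt.eq_zero_of_not_dvd (cK_unit hp hp3 hp7)]
    norm_num
  rw [h4] at h3
  have h5 : 0 ≤ padicValRat p (z : ℚ) := by
    rw [padicValRat.of_int]
    positivity
  push_cast at h3 ⊢
  linarith

theorem result (p : ℕ) [Fact p.Prime] (hp3 : 3 < p) (hp7 : p ≠ 7) :
    (∀ x y : ℤ, legendreSym p (-1) = 1 → legendreSym p 37 = 1 → (p : ℤ) = x ^ 2 + 37 * y ^ 2 →
      Congr p 2 (S p) (4 * x ^ 2 - 2 * p)) ∧
    (∀ x y : ℤ, legendreSym p (-1) = -1 → legendreSym p 37 = -1 → 2 * (p : ℤ) = x ^ 2 + 37 * y ^ 2 →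
      Congr p 2 (S p) (2 * p - 2 * x ^ 2)) ∧
    (legendreSym p (-37) = -1 → Congr p 2 (S p) 0) := by
  have hp : p.Prime := Fact.out
  obtain ⟨hY, hU, h2, hL, hV⟩ := all
  obtain ⟨m1, m2, m3⟩ := main hY t_EXT hU h2 hL t_INE2 hV hp hp3 hp7
  have h37 : legendreSym p 37 ≠ 0 → p ≠ 37 := by
    intro h h1
    apply h
    rw [legendreSym.eq_zero_iff]
    exact (ZMod.intCast_zmod_eq_zero_iff_dvd 37 p).2 (by rw [h1]; norm_num)
  refine ⟨fun x y ha hb hxy => ?_, fun x y ha hb hxy => ?_, fun hin => ?_⟩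
  · have h5 := congr_of hp hp3 hp7 (m1 x y (h37 (by rw [hb]; norm_num)) hxy.symm)
    push_cast at h5
    exact h5
  · have h5 := congr_of hp hp3 hp7 (m2 x y (h37 (by rw [hb]; norm_num)) hxy.symm)
    push_cast at h5
    exact h5
  · have h5 := congr_of hp hp3 hp7 (v := 0) (by
      rw [mul_zero, sub_zero]
      refine m3 ?_
      rintro ⟨z, hz⟩
      rw [legendreSym.eq_neg_one_iff] at hin
      apply hin
      refine ⟨(z : ZMod p), ?_⟩
      have h6 : ((-37 - z ^ 2 : ℤ) : ZMod p) = 0 := (ZMod.intCast_zmod_eq_zero_iff_dvd _ p).2 hz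
      push_cast at h6 ⊢
      linear_combination h6)
    push_cast at h5
    exact h5

end Pool.Agent.Results.MP_7e705e_nt.ClassNumberTwo
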